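import Pool.Agent.W960.Alg
import Pool.Agent.H883LP.Final

set_option autoImplicit false

namespace Pool.Agent.W436

open Pool.Agent.W960 Pool.Agent.NPC Pool.Agent.H883LP Pool.Agent.H558R2 Matrix

/-- The row type. -/
abbrev RowT (q k : ℕ) : Type := (Fin q ⊕ Fin q) ⊕ (Fin k ⊕ Unit)

/-- the matrix with an abstract row type -/
def MA (R : List (List ℤ)) (k : ℕ) (i : Fin k) : RowT R.length k → Fin k → ℚ
  | .inl (.inl a), j => (((R.get a).getD j 0 : ℤ) : ℚ)
  | .inl (.inr a), j => ((-(R.get a).getD j 0 : ℤ) : ℚ)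
  | .inr (.inl a), j => if a = j then 1 else 0
  | .inr (.inr _), j => if i = j then 1 else 0

/-- the right-hand side -/
def MB (R : List (List ℤ)) (k : ℕ) : RowT R.length k → ℚ
  | .inl _ => 0
  | .inr (.inl _) => 0
  | .inr (.inr _) => 1

theorem bitLength_int (a : ℤ) : bitLength (a : ℚ) = 2 + a.natAbs.size := by
  simp [bitLength]; omega

theorem bitLength_int_le (a : ℤ) : bitLength (a : ℚ) ≤ sz a := by
  rw [bitLength_int]
  have := size_natAbs_le_sz a
  omega

theorem bitLength_zero : bitLength 0 = 2 := by simp [bitLength]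

theorem bitLength_one : bitLength 1 = 3 := by simp [bitLength]

theorem bitLength_ite_le (p : Prop) [Decidable p] : bitLength (if p then 1 else 0) ≤ 3 := by
  split_ifs
  · rw [bitLength_one]
  · rw [bitLength_zero]; norm_num

theorem sum_getD_le (r : List ℤ) : ∀ k, r.length = k →
    ∑ j : Fin k, sz (r.getD j 0) ≤ sz r := by
  induction r with
  | nil => intro k hk; subst hk; simp
  | cons a r ih =>
    intro k hk
    subst hk
    simp only [List.length_cons]
    rw [Fin.sum_univ_succ]
    have := ih r.length rfl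
    simp only [Fin.val_zero, List.getD_cons_zero, Fin.val_succ, List.getD_cons_succ, sz_list_cons]
    omega

theorem sum_get_le (R : List (List ℤ)) : ∑ a : Fin R.length, sz (R.get a) ≤ sz R := by
  induction R with
  | nil => simp
  | cons a R ih =>
    simp only [List.length_cons]
    rw [Fin.sum_univ_succ]
    simp only [List.get_eq_getElem, Fin.val_zero, List.getElem_cons_zero, Fin.val_succ,
      List.getElem_cons_succ, sz_list_cons] at ih ⊢
    omega

theorem sum_ite_cast {k : ℕ} (a : Fin k) (f : Fin k → ℝ) :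
    ∑ j, (((if a = j then 1 else 0 : ℚ)) : ℝ) * f j = f a := by
  rw [Finset.sum_eq_single a]
  · simp
  · intro j _ hj
    rw [if_neg (Ne.symm hj)]
    simp
  · intro h
    exact absurd (Finset.mem_univ a) h

theorem small_sol (R : List (List ℤ)) (k i : ℕ) (hR : ∀ r ∈ R, r.length = k) (hi : i < k)
    (x : Fin k → ℝ) (hx0 : ∀ j, 0 ≤ x j)
    (hx : ∀ r ∈ R, ∑ j : Fin k, ((r.getD j 0 : ℤ) : ℝ) * x j = 0) (hxi : 0 < x ⟨i, hi⟩) :
    ∃ y : Fin k → ℝ, (∀ j, 0 ≤ y j ∧ y j ≤ 1) ∧
      (∀ r ∈ R, ∑ j : Fin k, ((r.getD j 0 : ℤ) : ℝ) * y j = 0) ∧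
      1 ≤ 2 ^ bet R k * y ⟨i, hi⟩ := by
  classical
  set i' : Fin k := ⟨i, hi⟩ with hi'
  let e := Fintype.equivFin (RowT R.length k)
  set m := Fintype.card (RowT R.length k) with hm
  have hm1 : 1 ≤ m := Fintype.card_pos_iff.2 ⟨Sum.inr (Sum.inr ())⟩
  have hk1 : 1 ≤ k := by omega
  obtain ⟨T, hT1, hT2⟩ := searchThm m k hm1 hk1
  let A : Matrix (Fin m) (Fin k) ℚ := fun r j => MA R k i' (e.symm r) j
  let b : Fin m → ℚ := fun r => MB R k (e.symm r)
  let AR : Matrix (Fin m) (Fin k) ℝ := fun r j => ((A r j : ℚ) : ℝ)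
  let bR : Fin m → ℝ := fun r => ((b r : ℚ) : ℝ)
  -- the length
  have hlen : inputLength A b ≤ ell R k := by
    have h1 : inputLength A b = ∑ a : RowT R.length k, ∑ j, bitLength (MA R k i' a j)
        + ∑ a : RowT R.length k, bitLength (MB R k a) := by
      unfold inputLength
      rw [← Equiv.sum_comp e.symm (fun a => ∑ j, bitLength (MA R k i' a j)),
        ← Equiv.sum_comp e.symm (fun a => bitLength (MB R k a))]
    rw [h1]
    simp only [Fintype.sum_sum_type, Finset.univ_unique, Finset.sum_singleton]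
    have hA1 : ∑ a : Fin R.length, ∑ j, bitLength (MA R k i' (Sum.inl (Sum.inl a)) j) ≤ sz R := by
      refine le_trans (Finset.sum_le_sum fun a _ => ?_) (sum_get_le R)
      refine le_trans (Finset.sum_le_sum fun j _ => ?_)
        (sum_getD_le (R.get a) k (hR _ (List.get_mem R a)))
      exact bitLength_int_le _
    have hA2 : ∑ a : Fin R.length, ∑ j, bitLength (MA R k i' (Sum.inl (Sum.inr a)) j) ≤ sz R := by
      refine le_trans (Finset.sum_le_sum fun a _ => ?_) (sum_get_le R)
      refine le_trans (Finset.sum_le_sum fun j _ => ?_)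
        (sum_getD_le (R.get a) k (hR _ (List.get_mem R a)))
      have : bitLength (MA R k i' (Sum.inl (Sum.inr a)) j)
          = bitLength (((R.get a).getD j 0 : ℤ) : ℚ) := by
        change bitLength (((-(R.get a).getD j 0 : ℤ) : ℚ)) = _
        rw [bitLength_int, bitLength_int, Int.natAbs_neg]
      rw [this]
      exact bitLength_int_le _
    have hA3 : ∑ a : Fin k, ∑ j, bitLength (MA R k i' (Sum.inr (Sum.inl a)) j) ≤ k * (k * 3) := by
      have : ∀ a : Fin k, ∑ j : Fin k, bitLength (MA R k i' (Sum.inr (Sum.inl a)) j) ≤ k * 3 := by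
        intro a
        have := Finset.sum_le_card_nsmul Finset.univ
          (fun j : Fin k => bitLength (MA R k i' (Sum.inr (Sum.inl a)) j)) 3
          (fun j _ => bitLength_ite_le _)
        simpa using this
      have := Finset.sum_le_card_nsmul Finset.univ
          (fun a : Fin k => ∑ j : Fin k, bitLength (MA R k i' (Sum.inr (Sum.inl a)) j)) (k * 3)
          (fun j _ => this j)
      simpa using this
    have hA4 : ∑ j : Fin k, bitLength (MA R k i' (Sum.inr (Sum.inr default)) j) ≤ k * 3 := by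
      have := Finset.sum_le_card_nsmul Finset.univ
          (fun j : Fin k => bitLength (MA R k i' (Sum.inr (Sum.inr default)) j)) 3
          (fun j _ => bitLength_ite_le _)
      simpa using this
    have hB1 : ∑ a : Fin R.length, bitLength (MB R k (Sum.inl (Sum.inl a))) = R.length * 2 := by
      have : ∀ a : Fin R.length, bitLength (MB R k (Sum.inl (Sum.inl a))) = 2 :=
        fun a => bitLength_zero
      simp [this]
    have hB2 : ∑ a : Fin R.length, bitLength (MB R k (Sum.inl (Sum.inr a))) = R.length * 2 := by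
      have : ∀ a : Fin R.length, bitLength (MB R k (Sum.inl (Sum.inr a))) = 2 :=
        fun a => bitLength_zero
      simp [this]
    have hB3 : ∑ a : Fin k, bitLength (MB R k (Sum.inr (Sum.inl a))) = k * 2 := by
      have : ∀ a : Fin k, bitLength (MB R k (Sum.inr (Sum.inl a))) = 2 :=
        fun a => bitLength_zero
      simp [this]
    have hB4 : bitLength (MB R k (Sum.inr (Sum.inr default))) = 3 := bitLength_one
    have hlt := length_lt_sz R
    unfold ell
    rw [hB1, hB2, hB3, hB4]
    nlinarith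
  -- the answer
  obtain ⟨ans, nums, steps, hrun, -, htrue, hfalse⟩ := hT1 AR bR
  have hfeas : bR ≤ AR.mulVec (fun j => x j / x i') := by
    intro r
    obtain ⟨a, rfl⟩ : ∃ a, r = e a := ⟨e.symm r, by simp⟩
    have key : ∀ a : RowT R.length k, ((MB R k a : ℚ) : ℝ) ≤
        ∑ j, ((MA R k i' a j : ℚ) : ℝ) * (x j / x i') := by
      intro a
      rcases a with (a | a) | (a | a)
      · have := hx _ (List.get_mem R a)
        have e1 : ∑ j, ((MA R k i' (Sum.inl (Sum.inl a)) j : ℚ) : ℝ) * (x j / x i') =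
            (∑ j : Fin k, (((R.get a).getD j 0 : ℤ) : ℝ) * x j) / x i' := by
          rw [Finset.sum_div]
          refine Finset.sum_congr rfl fun j _ => ?_
          simp only [MA]
          push_cast
          ring
        rw [e1, this]
        simp [MB]
      · have := hx _ (List.get_mem R a)
        have e1 : ∑ j, ((MA R k i' (Sum.inl (Sum.inr a)) j : ℚ) : ℝ) * (x j / x i') =
            -((∑ j : Fin k, (((R.get a).getD j 0 : ℤ) : ℝ) * x j) / x i') := by
          rw [Finset.sum_div, ← Finset.sum_neg_distrib]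
          refine Finset.sum_congr rfl fun j _ => ?_
          simp only [MA]
          push_cast
          ring
        rw [e1, this]
        simp [MB]
      · have e1 : ∑ j, ((MA R k i' (Sum.inr (Sum.inl a)) j : ℚ) : ℝ) * (x j / x i') =
            x a / x i' := sum_ite_cast a (fun j => x j / x i')
        rw [e1]
        have : 0 ≤ x a / x i' := div_nonneg (hx0 a) hxi.le
        simpa [MB] using this
      · have e1 : ∑ j, ((MA R k i' (Sum.inr (Sum.inr a)) j : ℚ) : ℝ) * (x j / x i') =
            x i' / x i' := sum_ite_cast i' (fun j => x j / x i')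
        rw [e1, div_self hxi.ne']
        simp [MB]
    have := key a
    simpa [bR, AR, A, b, Matrix.mulVec, dotProduct] using this
  have hans : ans = true := by
    rcases Bool.eq_false_or_eq_true ans with h | h
    · exact h
    · exfalso
      obtain ⟨y, hy0, hyA, hyb, -⟩ := hfalse h
      have h1 : y ⬝ᵥ bR ≤ y ⬝ᵥ AR.mulVec (fun j => x j / x i') := by
        unfold dotProduct
        exact Finset.sum_le_sum fun r _ => mul_le_mul_of_nonneg_left (hfeas r) (hy0 r)
      rw [Matrix.dotProduct_mulVec, hyA, zero_dotProduct] at h1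
      linarith
  obtain ⟨z, hz, l, hl⟩ := htrue hans
  have hz2 : ∀ j, ∃ q : ℚ, (q : ℝ) = z j ∧ bitLength q ≤ 30 * inputLength A b ^ 2 := by
    intro j
    refine hT2 A b ans nums steps hrun (z j) ?_
    rw [hl]
    exact List.mem_append_right _ (List.mem_ofFn.2 ⟨j, rfl⟩)
  have hzr : ∀ a : RowT R.length k, ((MB R k a : ℚ) : ℝ) ≤
      ∑ j, ((MA R k i' a j : ℚ) : ℝ) * z j := by
    intro a
    have := hz (e a)
    simpa [bR, AR, A, b, Matrix.mulVec, dotProduct] using this
  have hznn : ∀ j, 0 ≤ z j := by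
    intro j
    have := hzr (Sum.inr (Sum.inl j))
    have e1 : ∑ j', ((MA R k i' (Sum.inr (Sum.inl j)) j' : ℚ) : ℝ) * z j' = z j :=
      sum_ite_cast j z
    rw [e1] at this
    simpa [MB] using this
  have hzi : 1 ≤ z i' := by
    have := hzr (Sum.inr (Sum.inr ()))
    have e1 : ∑ j', ((MA R k i' (Sum.inr (Sum.inr ())) j' : ℚ) : ℝ) * z j' = z i' :=
      sum_ite_cast i' z
    rw [e1] at this
    simpa [MB] using this
  have hbet : 30 * inputLength A b ^ 2 ≤ bet R k := by
    unfold bet
    exact Nat.mul_le_mul_left _ (Nat.pow_le_pow_left hlen 2)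
  have hzle : ∀ j, z j ≤ 2 ^ bet R k := by
    intro j
    obtain ⟨q, hq, hql⟩ := hz2 j
    have h1 : (q : ℝ) ≤ (q.num.natAbs : ℝ) := by
      have h2 : q ≤ (q.num.natAbs : ℚ) := by
        have h3 : q ≤ |q| := le_abs_self q
        have h4 : |q| ≤ (q.num.natAbs : ℚ) := by
          have h5 : |q| = (q.num.natAbs : ℚ) / (q.den : ℚ) := by
            rw [Nat.cast_natAbs, Int.cast_abs]
            conv_lhs => rw [← Rat.num_div_den q]
            rw [abs_div, Nat.abs_cast]
          rw [h5]
          apply div_le_self (Nat.cast_nonneg _)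
          exact_mod_cast q.den_pos
        linarith
      exact_mod_cast h2
    have h6 : q.num.natAbs < 2 ^ bet R k := by
      have h7 : q.num.natAbs < 2 ^ (Nat.size q.num.natAbs) := Nat.lt_size_self _
      refine lt_of_lt_of_le h7 (Nat.pow_le_pow_right (by norm_num) ?_)
      unfold bitLength at hql
      omega
    have h8 : (q.num.natAbs : ℝ) < 2 ^ bet R k := by exact_mod_cast h6
    rw [← hq]
    linarith
  have hp : (0 : ℝ) < 2 ^ bet R k := by positivity
  refine ⟨fun j => z j / 2 ^ bet R k, fun j => ⟨div_nonneg (hznn j) hp.le, ?_⟩, ?_, ?_⟩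
  · rw [div_le_one hp]
    exact hzle j
  · intro r hr
    obtain ⟨a, rfl⟩ := List.get_of_mem hr
    have h1 := hzr (Sum.inl (Sum.inl a))
    have h2 := hzr (Sum.inl (Sum.inr a))
    have e1 : ∑ j, ((MA R k i' (Sum.inl (Sum.inl a)) j : ℚ) : ℝ) * z j =
        ∑ j : Fin k, (((R.get a).getD j 0 : ℤ) : ℝ) * z j := by
      refine Finset.sum_congr rfl fun j _ => ?_
      simp only [MA]
      push_cast
      ring
    have e2 : ∑ j, ((MA R k i' (Sum.inl (Sum.inr a)) j : ℚ) : ℝ) * z j =
        -∑ j : Fin k, (((R.get a).getD j 0 : ℤ) : ℝ) * z j := by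
      rw [← Finset.sum_neg_distrib]
      refine Finset.sum_congr rfl fun j _ => ?_
      simp only [MA]
      push_cast
      ring
    rw [e1] at h1
    rw [e2] at h2
    have h3 : ((MB R k (Sum.inl (Sum.inl a)) : ℚ) : ℝ) = 0 := by simp [MB]
    have h4 : ((MB R k (Sum.inl (Sum.inr a)) : ℚ) : ℝ) = 0 := by simp [MB]
    rw [h3] at h1
    rw [h4] at h2
    have h5 : ∑ j : Fin k, (((R.get a).getD j 0 : ℤ) : ℝ) * z j = 0 := by linarith
    have h6 : ∑ j : Fin k, (((R.get a).getD j 0 : ℤ) : ℝ) * (z j / 2 ^ bet R k) =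
        (∑ j : Fin k, (((R.get a).getD j 0 : ℤ) : ℝ) * z j) / 2 ^ bet R k := by
      rw [Finset.sum_div]
      refine Finset.sum_congr rfl fun j _ => ?_
      ring
    rw [h6, h5, zero_div]
  · rw [mul_div_cancel₀ _ hp.ne']
    exact hzi

end Pool.Agent.W436
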