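import Pool.Agent.H575R2.Farkas

set_option autoImplicit false

namespace Pool.Agent.W436

open Matrix

/-- The linear form `x ↦ a ⬝ᵥ x`. -/
def dotL {n : ℕ} (a : Fin n → ℝ) : (Fin n → ℝ) →ₗ[ℝ] ℝ where
  toFun x := a ⬝ᵥ x
  map_add' x y := dotProduct_add a x y
  map_smul' c x := by simp [dotProduct_smul]

theorem dotL_apply {n : ℕ} (a x : Fin n → ℝ) : dotL a x = a ⬝ᵥ x := rfl

theorem farkas_fintype {U : Type*} [AddCommGroup U] [Module ℝ U] {κ : Type} [Fintype κ]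
    (ℓ : κ → (U →ₗ[ℝ] ℝ)) (f : U →ₗ[ℝ] ℝ)
    (h : ∀ x, (∀ i, ℓ i x ≤ 0) → f x ≤ 0) :
    ∃ w : κ → ℝ, (∀ i, 0 ≤ w i) ∧ ∀ x, f x = ∑ i, w i * ℓ i x := by
  classical
  let e := Fintype.equivFin κ
  obtain ⟨w, hw, hf⟩ := H575R2.farkas_lin (Fintype.card κ) (fun i => ℓ (e.symm i)) f
    (fun x hx => h x (fun i => by simpa using hx (e i)))
  refine ⟨fun i => w (e i), fun i => hw _, fun x => ?_⟩
  rw [hf x]
  rw [← Equiv.sum_comp e]
  simp

/-- Farkas' lemma over `ℝ`, with equalities `A` and inequalities `B`. -/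
theorem farkas {ι κ : Type} [Fintype ι] [Fintype κ] {n : ℕ} (A : ι → Fin n → ℝ)
    (B : κ → Fin n → ℝ) (g : Fin n → ℝ)
    (h : ¬ ∃ x : Fin n → ℝ, (∀ i, A i ⬝ᵥ x = 0) ∧ (∀ i, B i ⬝ᵥ x ≤ 0) ∧ 0 < g ⬝ᵥ x) :
    ∃ (y : ι → ℝ) (z : κ → ℝ), (∀ i, 0 ≤ z i) ∧ g = ∑ i, y i • A i + ∑ i, z i • B i := by
  classical
  obtain ⟨w, hw, hf⟩ := farkas_fintype (U := Fin n → ℝ) (κ := (ι ⊕ ι) ⊕ κ)
    (Sum.elim (Sum.elim (fun i => dotL (A i)) (fun i => dotL (-(A i)))) (fun i => dotL (B i)))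
    (dotL g) (by
      intro x hx
      by_contra hneg
      push Not at hneg
      refine h ⟨x, fun i => ?_, fun i => ?_, hneg⟩
      · have h1 := hx (Sum.inl (Sum.inl i))
        have h2 := hx (Sum.inl (Sum.inr i))
        simp only [Sum.elim_inl, Sum.elim_inr, dotL_apply, neg_dotProduct] at h1 h2
        linarith
      · have h1 := hx (Sum.inr i)
        simpa only [Sum.elim_inr, dotL_apply] using h1)
  refine ⟨fun i => w (Sum.inl (Sum.inl i)) - w (Sum.inl (Sum.inr i)), fun i => w (Sum.inr i),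
    fun i => hw _, ?_⟩
  have key : ∀ x, g ⬝ᵥ x = (∑ i, (w (Sum.inl (Sum.inl i)) - w (Sum.inl (Sum.inr i))) • A i
      + ∑ i, w (Sum.inr i) • B i) ⬝ᵥ x := by
    intro x
    have := hf x
    simp only [Fintype.sum_sum_type, Sum.elim_inl, Sum.elim_inr, dotL_apply,
      neg_dotProduct] at this
    rw [this, add_dotProduct, sum_dotProduct, sum_dotProduct]
    simp only [smul_dotProduct, smul_eq_mul]
    rw [← Finset.sum_add_distrib]
    congr 1
    refine Finset.sum_congr rfl fun i _ => ?_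
    ring
  exact dotProduct_eq _ _ key

theorem zipWith_sum_ofFn {n : ℕ} (a : ℕ → Fin n → ℝ) : ∀ (E : List ℕ) (y : Fin E.length → ℝ),
    (List.zipWith (fun t i => t • a i) (List.ofFn y) E).sum = ∑ i, y i • a (E.get i)
  | [], y => by simp
  | e :: E, y => by
    rw [List.ofFn_succ]
    simp only [List.zipWith_cons_cons, List.sum_cons]
    rw [zipWith_sum_ofFn a E]
    simp only [List.length_cons]
    rw [Fin.sum_univ_succ]
    rfl

/-- List version of Farkas' lemma. -/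
theorem farkas_list {n : ℕ} (a : ℕ → Fin n → ℝ) (E K : List ℕ) (g : Fin n → ℝ)
    (h : ¬ ∃ x : Fin n → ℝ, (∀ i ∈ E, a i ⬝ᵥ x = 0) ∧ (∀ i ∈ K, a i ⬝ᵥ x ≤ 0) ∧ 0 < g ⬝ᵥ x) :
    ∃ (y z : List ℝ), y.length = E.length ∧ z.length = K.length ∧ (∀ t ∈ z, 0 ≤ t) ∧
      g = (List.zipWith (fun t i => t • a i) y E).sum
        + (List.zipWith (fun t i => t • a i) z K).sum := by
  obtain ⟨y, z, hz, hg⟩ := farkas (fun i : Fin E.length => a (E.get i))
    (fun i : Fin K.length => a (K.get i)) g (by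
      rintro ⟨x, h1, h2, h3⟩
      refine h ⟨x, fun i hi => ?_, fun i hi => ?_, h3⟩
      · obtain ⟨k, rfl⟩ := List.get_of_mem hi
        exact h1 k
      · obtain ⟨k, rfl⟩ := List.get_of_mem hi
        exact h2 k)
  refine ⟨List.ofFn y, List.ofFn z, by simp, by simp, ?_, ?_⟩
  · intro t ht
    rw [List.mem_ofFn] at ht
    obtain ⟨i, rfl⟩ := ht
    exact hz i
  · rw [zipWith_sum_ofFn, zipWith_sum_ofFn]
    exact hg

end Pool.Agent.W436
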