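import Pool.Agent.W894.MB.Defs

/-!
Project MB, part MB-HOM: homogeneous sets.
-/

namespace Pool.Agent.W436.MBHom

open Set Pool.Agent.Helper669.Forcing Pool.Agent.H995R3.Boards Pool.Agent.W894.MB

universe u v

variable {K : Type u} [LinearOrder K]

open Classical in
/-- `p` below `x` and `q` from `x` on -/
noncomputable def glue (p q : Cond K) (x : K) : Cond K where
  f y := if y < x then p.f y else q.f y
  ctble := (p.ctble.union q.ctble).mono (by
    intro y hy
    change _ ≠ none at hy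
    by_cases h : y < x
    · rw [if_pos h] at hy
      exact Or.inl hy
    · rw [if_neg h] at hy
      exact Or.inr hy)
  regr := by
    intro y z h
    by_cases hy : y < x
    · rw [if_pos hy] at h
      exact p.regr y z h
    · rw [if_neg hy] at h
      exact q.regr y z h

open Classical in
/-- the part of `q` from `x` on -/
noncomputable def tl (q : Cond K) (x : K) : Cond K where
  f y := if y < x then none else q.f y
  ctble := q.ctble.mono (by
    intro y hy
    change _ ≠ none at hy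
    by_cases h : y < x
    · rw [if_pos h] at hy
      exact absurd rfl hy
    · rw [if_neg h] at hy
      exact hy)
  regr := by
    intro y z h
    by_cases hy : y < x
    · rw [if_pos hy] at h
      exact absurd h (by simp)
    · rw [if_neg hy] at h
      exact q.regr y z h

lemma glue_lt (p q : Cond K) {x y : K} (h : y < x) : (glue p q x).f y = p.f y := if_pos h

lemma glue_ge (p q : Cond K) {x y : K} (h : ¬ y < x) : (glue p q x).f y = q.f y := if_neg h

lemma tl_lt (q : Cond K) {x y : K} (h : y < x) : (tl q x).f y = none := if_pos h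

lemma tl_ge (q : Cond K) {x y : K} (h : ¬ y < x) : (tl q x).f y = q.f y := if_neg h

theorem main (h1 : S_CONST.{u,v}) (_h2 : S_SIGMA.{u}) (h3 : S_BDD.{u}) (h4 : S_PRESS.{u}) :
    S_HOM.{u,v} := by
  classical
  intro K _ _ U hU hS L hL w p c hc
  have hA1 : {x : K | ∀ y, p.f y ≠ none → y < x} ∈ U := h3 K U hU hS p
  have hup : ∀ x ∈ {x : K | ∀ y, p.f y ≠ none → y < x}, glue p (w.q x) x ≤ p := by
    intro x hx y z hyz
    have hy : y < x := hx y (by rw [hyz]; simp)
    rw [glue_lt _ _ hy]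
    exact hyz
  have huw : ∀ x, glue p (w.q x) x ≤ w.q x := by
    intro x y z hyz
    have hy : ¬ y < x := by
      intro h
      rw [w.hq x y h] at hyz
      exact absurd hyz (by simp)
    rw [glue_ge _ _ hy]
    exact hyz
  obtain ⟨x₀, hx₀⟩ := U.nonempty_of_mem hA1
  obtain ⟨-, -, l₀, -⟩ := (isFun_iff.1 hc x₀).1 p le_rfl
  have hex : ∀ x : K, ∃ rl : Cond K × L, (∀ y, p.f y ≠ none → y < x) →
      rl.1 ≤ glue p (w.q x) x ∧ rl.1 ∈ meets (c x rl.2) := by
    intro x
    by_cases hx : ∀ y, p.f y ≠ none → y < x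
    · obtain ⟨r, hr, l, hl⟩ := (isFun_iff.1 hc x).1 _ (hup x hx)
      exact ⟨(r, l), fun _ => ⟨hr, hl⟩⟩
    · exact ⟨(p, l₀), fun h => absurd h hx⟩
  choose rl hrl using hex
  obtain ⟨s, hs⟩ := h4 K U hU hS (fun x => (rl x).1)
  obtain ⟨l, hl⟩ := h1 K U hU L hL (fun x => (rl x).2)
  have hB : w.A ∩ ({x : K | ∀ y, p.f y ≠ none → y < x} ∩
      ({x | ∀ y, y < x → (rl x).1.f y = s.f y} ∩ {x | (rl x).2 = l})) ∈ U :=
    Filter.inter_mem w.hA (Filter.inter_mem hA1 (Filter.inter_mem hs hl))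
  obtain ⟨B, hBdef⟩ : ∃ B : Set K, B = w.A ∩ ({x : K | ∀ y, p.f y ≠ none → y < x} ∩
      ({x | ∀ y, y < x → (rl x).1.f y = s.f y} ∩ {x | (rl x).2 = l})) := ⟨_, rfl⟩
  rw [← hBdef] at hB
  have hBm : ∀ x ∈ B, x ∈ w.A ∧ (∀ y, p.f y ≠ none → y < x) ∧
      (∀ y, y < x → (rl x).1.f y = s.f y) ∧ (rl x).2 = l := by
    intro x hx
    rw [hBdef] at hx
    exact ⟨hx.1, hx.2.1, hx.2.2.1, hx.2.2.2⟩
  refine ⟨s, ?_, ⟨B, hB, fun x => tl (rl x).1 x, fun x y h => tl_lt _ h⟩, ⟨?_, ?_⟩, l, ?_⟩
  · -- `s ≤ p`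
    obtain ⟨x, hx⟩ := U.nonempty_of_mem hB
    obtain ⟨hxA, hx1, hx2, hx3⟩ := hBm x hx
    intro y z hyz
    have hy : y < x := hx1 y (by rw [hyz]; simp)
    rw [← hx2 y hy]
    exact (hrl x hx1).1 y z (hup x hx1 y z hyz)
  · intro x hx
    exact (hBm x hx).1
  · intro x hx y z hyz
    obtain ⟨hxA, hx1, hx2, hx3⟩ := hBm x hx
    have hy : ¬ y < x := by
      intro h
      rw [w.hq x y h] at hyz
      exact absurd hyz (by simp)
    show (tl (rl x).1 x).f y = some z
    rw [tl_ge _ hy]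
    exact (hrl x hx1).1 y z (huw x y z hyz)
  · intro x t ht htD
    obtain ⟨hxB, hq⟩ := htD
    obtain ⟨hxA, hx1, hx2, hx3⟩ := hBm x hxB
    have htr : t ≤ (rl x).1 := by
      intro y z hyz
      by_cases hy : y < x
      · apply ht
        rw [← hx2 y hy]
        exact hyz
      · apply hq
        show (tl (rl x).1 x).f y = some z
        rw [tl_ge _ hy]
        exact hyz
    have h5 := down_meets _ _ (hrl x hx1).2 _ htr
    rw [hx3] at h5
    exact h5

end Pool.Agent.W436.MBHom
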